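import Mathlib

section

set_option autoImplicit false

open Set Topology Metric Filter

namespace Pool.Agent.Lib.MP_3a436c_lc

/-- For every rotation-plus-translation `z ↦ u z + v` exactly one point of `A` is moved into `B`. -/
def Pl (A B : Set ℂ) : Prop := ∀ u v : ℂ, ‖u‖ = 1 → ∃! z : ℂ, z ∈ A ∧ u * z + v ∈ B

/-- The unit complex number of angle `t`. -/
noncomputable def e (t : ℝ) : ℂ := Complex.exp (t * Complex.I)

lemma norm_e (t : ℝ) : ‖e t‖ = 1 := Complex.norm_exp_ofReal_mul_I t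

lemma e_ne (t : ℝ) : e t ≠ 0 := Complex.exp_ne_zero _

lemma e_zero : e 0 = 1 := by simp [e]

lemma e_add (s t : ℝ) : e (s + t) = e s * e t := by
  simp [e, add_mul, Complex.exp_add]

lemma e_neg_mul (t : ℝ) : e (-t) * e t = 1 := by
  rw [← e_add]; simp [e]

lemma e_eq (t : ℝ) : e t = Real.cos t + Real.sin t * Complex.I := by
  simp [e, Complex.exp_mul_I]

lemma continuous_e : Continuous e := by
  unfold e; fun_prop

/-- A placement `(θ, v)` acts on the plane by `z ↦ e^{iθ} z + v`. -/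
noncomputable def act (h : ℝ × ℂ) (z : ℂ) : ℂ := e h.1 * z + h.2

/-- Rotation of a placement by the angle `t` about the image of `a`. -/
noncomputable def rot (a : ℂ) (t : ℝ) (h : ℝ × ℂ) : ℝ × ℂ :=
  (h.1 + t, h.2 + e h.1 * (1 - e t) * a)

lemma act_rot_self (a : ℂ) (t : ℝ) (h : ℝ × ℂ) : act (rot a t h) a = act h a := by
  simp only [act, rot, e_add]; ring

lemma rot_zero (a : ℂ) (h : ℝ × ℂ) : rot a 0 h = h := by
  simp [rot, e_zero]

lemma rot_rot (a : ℂ) (s t : ℝ) (h : ℝ × ℂ) : rot a s (rot a t h) = rot a (t + s) h := by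
  ext1
  · simp [rot, add_assoc]
  · simp only [rot, e_add]; ring

lemma continuous_rot (a : ℂ) : Continuous (fun p : ℝ × (ℝ × ℂ) => rot a p.1 p.2) := by
  unfold rot
  have := continuous_e
  fun_prop

lemma continuous_rot_right (a : ℂ) (t : ℝ) : Continuous (rot a t) :=
  (continuous_rot a).comp (by fun_prop : Continuous fun h : ℝ × ℂ => (t, h))

lemma continuous_rot_left (a : ℂ) (h : ℝ × ℂ) : Continuous (fun t => rot a t h) :=
  (continuous_rot a).comp (by fun_prop : Continuous fun t : ℝ => (t, h))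

lemma continuous_act (a : ℂ) : Continuous (fun h : ℝ × ℂ => act h a) := by
  unfold act
  have := continuous_e
  fun_prop

/-- The homeomorphism `(θ, v) ↦ (θ, e^{iθ} a + v)`. -/
noncomputable def shear (a : ℂ) : (ℝ × ℂ) ≃ₜ (ℝ × ℂ) where
  toFun h := (h.1, act h a)
  invFun h := (h.1, h.2 - e h.1 * a)
  left_inv h := by simp [act]
  right_inv h := by simp [act]
  continuous_toFun := by
    have := continuous_act a
    fun_prop
  continuous_invFun := by
    have := continuous_e
    fun_prop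

lemma isOpenMap_act (a : ℂ) : IsOpenMap (fun h : ℝ × ℂ => act h a) := by
  have h1 : IsOpenMap (Prod.snd : ℝ × ℂ → ℂ) := isOpenMap_snd
  have h2 : IsOpenMap (shear a) := (shear a).isOpenMap
  exact h1.comp h2

lemma norm_act_sub (h : ℝ × ℂ) (a b : ℂ) : ‖act h a - act h b‖ = ‖a - b‖ := by
  have : act h a - act h b = e h.1 * (a - b) := by simp only [act]; ring
  rw [this, norm_mul, norm_e, one_mul]

section Basic

variable {A B : Set ℂ} (hP : Pl A B)
include hP

lemma exists_unique_act (h : ℝ × ℂ) : ∃! z : ℂ, z ∈ A ∧ act h z ∈ B := by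
  have := hP (e h.1) h.2 (norm_e _)
  simpa [act] using this

/-- Distances of `A` and `B` are disjoint. -/
lemma dist_disjoint {a a' x y : ℂ} (ha : a ∈ A) (ha' : a' ∈ A) (hx : x ∈ B) (hy : y ∈ B)
    (h : ‖x - y‖ = ‖a - a'‖) : a = a' := by
  by_contra hne
  have hne' : a - a' ≠ 0 := sub_ne_zero.2 hne
  set u : ℂ := (x - y) / (a - a') with hu
  have hun : ‖u‖ = 1 := by
    rw [hu, norm_div, h]
    exact div_self (norm_ne_zero_iff.2 hne')
  obtain ⟨z, _, hz⟩ := hP u (x - u * a) hun
  have h1 : a = z := hz a ⟨ha, by ring_nf; exact hx⟩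
  have h2 : a' = z := by
    apply hz a' ⟨ha', _⟩
    have : u * a' + (x - u * a) = y := by
      have h3 : u * (a - a') = x - y := by rw [hu]; field_simp
      have : u * a' + (x - u * a) = x - u * (a - a') := by ring
      rw [this, h3]; ring
    rw [this]; exact hy
  exact hne (h1.trans h2.symm)

end Basic

section Core

variable {A B O : Set ℂ}

/-- Points of the open set `O` are never at a distance of `A`. -/
lemma open_dist (hP : Pl A B) (hO : IsOpen O) (hN : IsMeagre (O \ B)) {a a' x y : ℂ}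
    (ha : a ∈ A) (ha' : a' ∈ A) (hx : x ∈ O) (hy : y ∈ O) (h : ‖x - y‖ = ‖a - a'‖) : a = a' := by
  set v := y - x with hv
  have hW : IsOpen (O ∩ (fun z => z + v) ⁻¹' O) := hO.inter (hO.preimage (by fun_prop))
  have hxW : x ∈ O ∩ (fun z => z + v) ⁻¹' O := ⟨hx, by simp [hv, hy]⟩
  have hm1 : IsMeagre ((fun z : ℂ => z + v) ⁻¹' (O \ B)) :=
    IsMeagre.preimage_of_isOpenMap (by fun_prop) (Homeomorph.addRight v).isOpenMap hN
  have hnm := not_isMeagre_of_isOpen hW ⟨x, hxW⟩
  have : ∃ z ∈ O ∩ (fun z => z + v) ⁻¹' O, z ∉ (O \ B) ∪ (fun z : ℂ => z + v) ⁻¹' (O \ B) := by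
    by_contra hcon
    push Not at hcon
    exact hnm ((hN.union hm1).mono hcon)
  obtain ⟨z, hz, hz'⟩ := this
  have hzB : z ∈ B := by
    by_contra hc; exact hz' (Or.inl ⟨hz.1, hc⟩)
  have hzB' : z + v ∈ B := by
    by_contra hc; exact hz' (Or.inr ⟨hz.2, hc⟩)
  apply dist_disjoint hP ha ha' hzB hzB'
  rw [← h]
  have : z - (z + v) = x - y := by rw [hv]; ring
  rw [this]

lemma hasStrictDerivAt_e (t : ℝ) : HasStrictDerivAt e (e t * Complex.I) t := by
  have h1 : HasStrictDerivAt (fun s : ℝ => (s : ℂ) * Complex.I) (1 * Complex.I) t :=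
    (Complex.ofRealCLM.hasStrictFDerivAt.hasStrictDerivAt (x := t)).mul_const Complex.I
  have h2 := h1.cexp
  rw [one_mul] at h2
  exact h2

/-- The circle map of two parameters. -/
noncomputable def cmap (y w c : ℂ) (p : ℝ × ℝ) : ℂ := y + e p.1 * w + e p.2 * c

lemma continuous_cmap (y w c : ℂ) : Continuous (cmap y w c) := by
  unfold cmap
  have := continuous_e
  fun_prop

/-- The linear map `(s,t) ↦ s α + t β`. -/
noncomputable def lin (α β : ℂ) : ℝ × ℝ →L[ℝ] ℂ :=
  (ContinuousLinearMap.fst ℝ ℝ ℝ).smulRight α + (ContinuousLinearMap.snd ℝ ℝ ℝ).smulRight β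

lemma lin_apply (α β : ℂ) (p : ℝ × ℝ) : lin α β p = p.1 * α + p.2 * β := by
  simp [lin]

lemma lin_surj {α β : ℂ} (h : (α * (starRingEnd ℂ) β).im ≠ 0) : (lin α β).range = ⊤ := by
  rw [LinearMap.range_eq_top]
  intro z
  have hD : (α * (starRingEnd ℂ) β).im = α.im * β.re - α.re * β.im := by
    simp [Complex.mul_im]; ring
  rw [hD] at h
  obtain ⟨s, hs⟩ : ∃ s : ℝ, s * (α.im * β.re - α.re * β.im) = z.im * β.re - z.re * β.im :=
    ⟨_, div_mul_cancel₀ _ h⟩
  obtain ⟨t, ht⟩ : ∃ t : ℝ, t * (α.im * β.re - α.re * β.im) = z.re * α.im - z.im * α.re :=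
    ⟨_, div_mul_cancel₀ _ h⟩
  refine ⟨(s, t), ?_⟩
  simp only [ContinuousLinearMap.coe_coe, lin_apply]
  apply Complex.ext
  · simp only [Complex.add_re, Complex.mul_re, Complex.ofReal_re, Complex.ofReal_im, zero_mul,
      sub_zero]
    apply mul_right_cancel₀ h
    linear_combination α.re * hs + β.re * ht
  · simp only [Complex.add_im, Complex.mul_im, Complex.ofReal_re, Complex.ofReal_im, zero_mul,
      add_zero]
    apply mul_right_cancel₀ h
    linear_combination α.im * hs + β.im * ht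

lemma cmap_deriv (y w c : ℂ) (p : ℝ × ℝ) :
    HasStrictFDerivAt (cmap y w c) (lin (e p.1 * Complex.I * w) (e p.2 * Complex.I * c)) p := by
  have h1 : HasStrictFDerivAt (fun q : ℝ × ℝ => e q.1 * w)
      ((ContinuousLinearMap.fst ℝ ℝ ℝ).smulRight (e p.1 * Complex.I * w)) p := by
    have h := (hasStrictDerivAt_e p.1).mul_const w
    have hf : HasStrictFDerivAt (Prod.fst : ℝ × ℝ → ℝ) (ContinuousLinearMap.fst ℝ ℝ ℝ) p :=
      hasStrictFDerivAt_fst
    have h' := (h.hasStrictFDerivAt).comp p hf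
    have hEq : (ContinuousLinearMap.fst ℝ ℝ ℝ).smulRight (e p.1 * Complex.I * w) =
        (ContinuousLinearMap.toSpanSingleton ℝ (e p.1 * Complex.I * w)).comp
          (ContinuousLinearMap.fst ℝ ℝ ℝ) := by
      ext <;> simp
    rw [hEq]
    exact h'
  have h2 : HasStrictFDerivAt (fun q : ℝ × ℝ => e q.2 * c)
      ((ContinuousLinearMap.snd ℝ ℝ ℝ).smulRight (e p.2 * Complex.I * c)) p := by
    have h := (hasStrictDerivAt_e p.2).mul_const c
    have hf : HasStrictFDerivAt (Prod.snd : ℝ × ℝ → ℝ) (ContinuousLinearMap.snd ℝ ℝ ℝ) p :=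
      hasStrictFDerivAt_snd
    have h' := (h.hasStrictFDerivAt).comp p hf
    have hEq : (ContinuousLinearMap.snd ℝ ℝ ℝ).smulRight (e p.2 * Complex.I * c) =
        (ContinuousLinearMap.toSpanSingleton ℝ (e p.2 * Complex.I * c)).comp
          (ContinuousLinearMap.snd ℝ ℝ ℝ) := by
      ext <;> simp
    rw [hEq]
    exact h'
  have h3 := (h1.add h2).const_add y
  refine h3.congr_of_eventuallyEq ?_
  filter_upwards with q
  simp [cmap, add_assoc]

/-- The preimage of a meagre set under the circle map is meagre. -/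
lemma cmap_preimage_meagre {y w c : ℂ} (hw : w ≠ 0) (hc : c ≠ 0) {E : Set ℂ} (hE : IsMeagre E) :
    IsMeagre (cmap y w c ⁻¹' E) := by
  rw [isMeagre_iff_countable_union_isNowhereDense] at hE
  obtain ⟨S, hS, hSc, hSE⟩ := hE
  have key : ∀ s ∈ S, IsMeagre (cmap y w c ⁻¹' s) := by
    intro s hs
    have hnd := hS s hs
    apply IsNowhereDense.isMeagre
    rw [IsNowhereDense] at hnd ⊢
    by_contra hne
    obtain ⟨p, hp⟩ := nonempty_iff_ne_empty.2 hne
    have hsub : interior (closure (cmap y w c ⁻¹' s)) ⊆ cmap y w c ⁻¹' (closure s) :=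
      interior_subset.trans ((continuous_cmap y w c).closure_preimage_subset s)
    -- find a point with nonzero jacobian
    obtain ⟨q, hq, hjac⟩ : ∃ q ∈ interior (closure (cmap y w c ⁻¹' s)),
        ((e q.1 * Complex.I * w) * (starRingEnd ℂ) (e q.2 * Complex.I * c)).im ≠ 0 := by
      by_cases h0 : ((e p.1 * Complex.I * w) * (starRingEnd ℂ) (e p.2 * Complex.I * c)).im ≠ 0
      · exact ⟨p, hp, h0⟩
      · push Not at h0
        have hopen : IsOpen (interior (closure (cmap y w c ⁻¹' s))) := isOpen_interior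
        have hnear : ∀ᶠ d in 𝓝[>] (0 : ℝ), (p.1 + d, p.2) ∈ interior (closure (cmap y w c ⁻¹' s)) := by
          have : Tendsto (fun d : ℝ => (p.1 + d, p.2)) (𝓝[>] (0:ℝ)) (𝓝 p) := by
            have h1 : Tendsto (fun d : ℝ => (p.1 + d, p.2)) (𝓝 (0:ℝ)) (𝓝 (p.1 + 0, p.2)) :=
              Continuous.tendsto (by fun_prop) 0
            rw [add_zero] at h1
            exact h1.mono_left nhdsWithin_le_nhds
          exact this (hopen.mem_nhds hp)
        have hpi : ∀ᶠ d in 𝓝[>] (0 : ℝ), d ∈ Ioo (0:ℝ) Real.pi :=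
          Ioo_mem_nhdsGT Real.pi_pos
        obtain ⟨d, hd, hd2⟩ := (hnear.and hpi).exists
        refine ⟨_, hd, ?_⟩
        set k := (e p.1 * Complex.I * w) * (starRingEnd ℂ) (e p.2 * Complex.I * c) with hk
        have hkne : k ≠ 0 := by
          have e1 : e p.1 ≠ 0 := Complex.exp_ne_zero _
          have e2 : e p.2 ≠ 0 := Complex.exp_ne_zero _
          simp [hk, hw, hc, e1, e2]
        have hkd : (e (p.1 + d) * Complex.I * w) * (starRingEnd ℂ) (e p.2 * Complex.I * c) = e d * k := by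
          rw [hk, e_add]; ring
        have hre : k.re ≠ 0 := by
          intro hre; apply hkne; apply Complex.ext <;> simp [hre, h0]
        simp only [hkd]
        have hsin : Real.sin d ≠ 0 := (Real.sin_pos_of_mem_Ioo hd2).ne'
        have him : (e d).im = Real.sin d := by
          rw [e_eq]
          simp only [Complex.add_im, Complex.mul_im, Complex.ofReal_re, Complex.ofReal_im,
            Complex.I_re, Complex.I_im]
          ring
        rw [Complex.mul_im, h0, him, mul_zero, zero_add]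
        exact mul_ne_zero hsin hre
    have hmap := (cmap_deriv y w c q).map_nhds_eq_of_surj (lin_surj hjac)
    have h1 : interior (closure (cmap y w c ⁻¹' s)) ∈ 𝓝 q := isOpen_interior.mem_nhds hq
    have h2 : cmap y w c '' (interior (closure (cmap y w c ⁻¹' s))) ∈ 𝓝 (cmap y w c q) := by
      rw [← hmap]; exact image_mem_map h1
    have h3 : closure s ∈ 𝓝 (cmap y w c q) :=
      mem_of_superset h2 (by rintro _ ⟨r, hr, rfl⟩; exact hsub hr)
    have h4 : cmap y w c q ∈ interior (closure s) := mem_interior_iff_mem_nhds.2 h3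
    rw [hnd] at h4
    exact h4
  have : cmap y w c ⁻¹' E ⊆ ⋃ s ∈ S, cmap y w c ⁻¹' s := by
    intro x hx
    obtain ⟨s, hs, hxs⟩ := hSE hx
    exact mem_biUnion hs hxs
  exact (isMeagre_biUnion hSc key).mono this

/-- Points of `B \ O` see `O` at no distance of `A`. -/
lemma circle_avoid (hP : Pl A B) (hA : A.Countable) (hO : IsOpen O) (hE : IsMeagre (B \ O))
    (hN : IsMeagre (O \ B)) {a a' x y : ℂ} (ha : a ∈ A) (ha' : a' ∈ A) (hne : a ≠ a')
    (hy : y ∈ B) (hx : x ∈ O) (h : ‖x - y‖ = ‖a - a'‖) : False := by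
  set w := x - y with hw
  have hw0 : w ≠ 0 := by
    intro h0
    rw [h0, norm_zero] at h
    exact hne (sub_eq_zero.1 (norm_eq_zero.1 h.symm))
  set W : Set (ℝ × ℝ) := {p | y + e p.1 * w ∈ O} with hW
  have hWo : IsOpen W := by
    have hc : Continuous (fun p : ℝ × ℝ => y + e p.1 * w) := by
      have := continuous_e
      fun_prop
    exact hO.preimage hc
  have hWne : W.Nonempty := ⟨(0, 0), by simp [hW, e_zero, hw, hx]⟩
  have hnm := not_isMeagre_of_isOpen hWo hWne
  apply hnm
  have hsub : W ⊆ ⋃ b ∈ A \ {a}, cmap y w (b - a) ⁻¹' (B \ O) := by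
    intro p hp
    have hxt : y + e p.1 * w ∈ O := hp
    have hnorm : ‖(y + e p.1 * w) - y‖ = ‖a - a'‖ := by
      have : (y + e p.1 * w) - y = e p.1 * w := by ring
      rw [this, norm_mul, norm_e, one_mul, h]
    have hxtB : y + e p.1 * w ∉ B := fun hc => hne (dist_disjoint hP ha ha' hc hy hnorm)
    obtain ⟨b, ⟨hbA, hbB⟩, -⟩ := exists_unique_act hP (p.2, (y + e p.1 * w) - e p.2 * a)
    have hact : act (p.2, (y + e p.1 * w) - e p.2 * a) b = cmap y w (b - a) p := by
      simp only [act, cmap]; ring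
    have hacta : act (p.2, (y + e p.1 * w) - e p.2 * a) a = y + e p.1 * w := by
      simp only [act]; ring
    have hba : b ≠ a := by
      rintro rfl
      rw [hacta] at hbB
      exact hxtB hbB
    refine mem_biUnion (x := b) ⟨hbA, hba⟩ ⟨by rw [← hact]; exact hbB, ?_⟩
    intro hO'
    apply hba
    refine open_dist hP hO hN hbA ha hO' hxt ?_
    have hn := norm_act_sub (p.2, (y + e p.1 * w) - e p.2 * a) b a
    rw [hact, hacta] at hn
    exact hn
  refine (isMeagre_biUnion (hA.mono sdiff_subset) ?_).mono hsub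
  intro b hb
  exact cmap_preimage_meagre hw0 (sub_ne_zero.2 hb.2) hE

/-- Placements of `A` that avoid the open set `O`. -/
def Zset (A O : Set ℂ) : Set (ℝ × ℂ) := {h | ∀ a ∈ A, act h a ∉ O}

lemma isClosed_Zset (hO : IsOpen O) : IsClosed (Zset A O) := by
  have : Zset A O = ⋂ a ∈ A, (fun h => act h a) ⁻¹' Oᶜ := by
    ext h; simp [Zset]
  rw [this]
  exact isClosed_biInter fun a _ => hO.isClosed_compl.preimage (continuous_act a)

lemma Hdisj (hP : Pl A B) (hO : IsOpen O) (hN : IsMeagre (O \ B)) {a a' : ℂ} {h : ℝ × ℂ}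
    (ha : a ∈ A) (ha' : a' ∈ A) (h1 : act h a ∈ O) (h2 : act h a' ∈ O) : a = a' :=
  open_dist hP hO hN ha ha' h1 h2 (norm_act_sub h a a')

lemma interior_Zset (hP : Pl A B) (hA : A.Countable) (hE : IsMeagre (B \ O)) :
    interior (Zset A O) = ∅ := by
  by_contra hne
  have hnm := not_isMeagre_of_isOpen (isOpen_interior (s := Zset A O)) (nonempty_iff_ne_empty.2 hne)
  apply hnm
  have hsub : interior (Zset A O) ⊆ ⋃ a ∈ A, (fun h => act h a) ⁻¹' (B \ O) := by
    intro h hh
    have hZ : h ∈ Zset A O := interior_subset hh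
    obtain ⟨a, ⟨haA, haB⟩, -⟩ := exists_unique_act hP h
    exact mem_biUnion haA ⟨haB, hZ a haA⟩
  refine (isMeagre_biUnion hA ?_).mono hsub
  intro a _
  exact IsMeagre.preimage_of_isOpenMap (continuous_act a) (isOpenMap_act a) hE

lemma Zset_nonempty (hP : Pl A B) (hO : IsOpen O) (hN : IsMeagre (O \ B)) {a₀ a₁ : ℂ}
    (h0 : a₀ ∈ A) (h1 : a₁ ∈ A) (hne : a₀ ≠ a₁) : (Zset A O).Nonempty := by
  by_contra hemp
  have hall : ∀ h, ∃ a ∈ A, act h a ∈ O := by
    intro h
    by_contra hcon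
    push Not at hcon
    exact hemp ⟨h, hcon⟩
  obtain ⟨a, haA, haO⟩ := hall (0, 0)
  have hopen : ∀ b : ℂ, IsOpen {h | act h b ∈ O} := fun b => hO.preimage (continuous_act b)
  have hclopen : IsClopen {h | act h a ∈ O} := by
    refine ⟨?_, hopen a⟩
    have : {h | act h a ∈ O}ᶜ = ⋃ b ∈ A \ {a}, {h | act h b ∈ O} := by
      ext h
      simp only [mem_compl_iff, mem_ofPred_eq, mem_iUnion, exists_prop, Set.mem_sdiff, mem_singleton_iff]
      constructor
      · intro hh
        obtain ⟨b, hb, hbO⟩ := hall h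
        refine ⟨b, ⟨hb, ?_⟩, hbO⟩
        rintro rfl
        exact hh hbO
      · rintro ⟨b, ⟨hb, hba⟩, hbO⟩ haO'
        exact hba (Hdisj hP hO hN hb haA hbO haO')
    rw [← isOpen_compl_iff, this]
    exact isOpen_biUnion fun b _ => hopen b
  rcases isClopen_iff.1 hclopen with h | h
  · have : ((0, 0) : ℝ × ℂ) ∈ {h | act h a ∈ O} := haO
    rw [h] at this
    exact this
  · have huniv : ∀ z, z ∈ O := by
      intro z
      have : ((0, z - a) : ℝ × ℂ) ∈ {h | act h a ∈ O} := by rw [h]; trivial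
      simpa [act, e_zero] using this
    exact hne (open_dist hP hO hN h0 h1 (huniv a₀) (huniv a₁) rfl)


lemma norm_one_sub_e (t : ℝ) : ‖1 - e t‖ ≤ |t| := by
  have h := Real.norm_exp_I_mul_ofReal_sub_one_le (x := t)
  rw [norm_sub_rev]
  have : e t = Complex.exp (Complex.I * t) := by rw [e, mul_comm]
  rw [this]
  simpa using h

/-- The heart of the matter: a placement in the closure of the placements sending `a'` into `O`
sends `a'` into `O`, provided that near it the set of such placements is locally invariant under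
small rotations about `a`. -/
lemma closure_step {a a' : ℂ} (hne : a ≠ a') {U : Set (ℝ × ℂ)} (hU : IsOpen U)
    (hloc : ∀ h : ℝ × ℂ, act h a' ∈ O → ∀ t : ℝ, (∀ s ∈ Icc (0:ℝ) 1, rot a (s * t) h ∈ U) →
      act (rot a t h) a' ∈ O)
    {h₁ : ℝ × ℂ} (h₁U : h₁ ∈ U) (hcl : h₁ ∈ closure {h | act h a' ∈ O}) : act h₁ a' ∈ O := by
  obtain ⟨θ, v₁⟩ := h₁
  set κ : ℂ := e θ * (a - a') with hκ
  have hκ0 : κ ≠ 0 := mul_ne_zero (e_ne θ) (sub_ne_zero.2 hne)
  set G : Set ℂ := {v | act (θ, v) a' ∈ O} with hG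
  -- neighbourhoods for the two moves
  have hc1 : Continuous (fun p : ℝ × ℂ => rot a p.1 (θ, p.2)) := by
    have := continuous_e
    unfold rot
    fun_prop
  have hc2 : Continuous (fun p : ℝ × ℝ × ℂ => rot a p.1 (rot a' (-p.2.1) (θ, p.2.2))) := by
    have := continuous_e
    unfold rot
    fun_prop
  have hn1 : ∀ᶠ p : ℝ × ℂ in 𝓝 (0, v₁), rot a p.1 (θ, p.2) ∈ U := by
    apply hc1.continuousAt.eventually_mem
    rw [rot_zero]; exact hU.mem_nhds h₁U
  have hn2 : ∀ᶠ p : ℝ × ℝ × ℂ in 𝓝 (0, 0, v₁), rot a p.1 (rot a' (-p.2.1) (θ, p.2.2)) ∈ U := by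
    apply hc2.continuousAt.eventually_mem
    simp only [neg_zero, rot_zero]; exact hU.mem_nhds h₁U
  obtain ⟨ε₁, hε₁, H1⟩ := Metric.eventually_nhds_iff.1 hn1
  obtain ⟨ε₂, hε₂, H2⟩ := Metric.eventually_nhds_iff.1 hn2
  set ε := min ε₁ ε₂ with hε
  have hεpos : 0 < ε := lt_min hε₁ hε₂
  have C1 : ∀ v : ℂ, ‖v - v₁‖ < ε → ∀ s : ℝ, |s| < ε → v ∈ G → v + κ * (1 - e s) ∈ G := by
    intro v hv s hs hvG
    have hpath : ∀ τ ∈ Icc (0:ℝ) 1, rot a (τ * s) (θ, v) ∈ U := by
      intro τ hτ
      have := @H1 (τ * s, v) (by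
        rw [Prod.dist_eq, max_lt_iff]
        constructor
        · simp only [Real.dist_eq, sub_zero, abs_mul]
          have h1 : |τ| ≤ 1 := abs_le.2 ⟨by linarith [hτ.1], hτ.2⟩
          calc |τ| * |s| ≤ 1 * |s| := by gcongr
            _ < ε := by rw [one_mul]; exact hs
            _ ≤ ε₁ := min_le_left _ _
        · rw [dist_eq_norm]; exact hv.trans_le (min_le_left _ _))
      exact this
    have h1 := hloc (θ, v) hvG s hpath
    have h2 : act (rot a' (-s) (rot a s (θ, v))) a' ∈ O := by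
      rw [act_rot_self]; exact h1
    have h3 : rot a' (-s) (rot a s (θ, v)) = (θ, v + κ * (1 - e s)) := by
      ext1
      · simp [rot]
      · simp only [rot, hκ, e_add]
        have := e_neg_mul s
        linear_combination (-(e θ) * a') * this
    rw [h3] at h2
    exact h2
  have C2 : ∀ v : ℂ, ‖v - v₁‖ < ε → ∀ s : ℝ, |s| < ε → v ∈ G → v - κ * (1 - e (-s)) ∈ G := by
    intro v hv s hs hvG
    have hg : act (rot a' (-s) (θ, v)) a' ∈ O := by rw [act_rot_self]; exact hvG
    have hpath : ∀ τ ∈ Icc (0:ℝ) 1, rot a (τ * s) (rot a' (-s) (θ, v)) ∈ U := by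
      intro τ hτ
      have := @H2 (τ * s, s, v) (by
        rw [Prod.dist_eq, max_lt_iff]
        constructor
        · simp only [Real.dist_eq, sub_zero, abs_mul]
          have h1 : |τ| ≤ 1 := abs_le.2 ⟨by linarith [hτ.1], hτ.2⟩
          calc |τ| * |s| ≤ 1 * |s| := by gcongr
            _ < ε := by rw [one_mul]; exact hs
            _ ≤ ε₂ := min_le_right _ _
        · rw [Prod.dist_eq, max_lt_iff]
          constructor
          · simp only [Real.dist_eq, sub_zero]
            exact hs.trans_le (min_le_right _ _)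
          · rw [dist_eq_norm]; exact hv.trans_le (min_le_right _ _))
      exact this
    have h1 := hloc _ hg s hpath
    have h3 : rot a s (rot a' (-s) (θ, v)) = (θ, v - κ * (1 - e (-s))) := by
      ext1
      · simp [rot]
      · simp only [rot, hκ, e_add]
        have := e_neg_mul s
        linear_combination (-(e θ) * a) * this
    rw [h3] at h1
    exact h1
  -- points of `G` near `v₁`
  have hclG : v₁ ∈ closure G := by
    have hcont : Continuous (fun h : ℝ × ℂ => (rot a' (θ - h.1) h).2) := by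
      have := continuous_e
      unfold rot
      fun_prop
    have hmaps : MapsTo (fun h : ℝ × ℂ => (rot a' (θ - h.1) h).2) {h | act h a' ∈ O} G := by
      intro h hh
      have h1 : act (rot a' (θ - h.1) h) a' ∈ O := by rw [act_rot_self]; exact hh
      have h2 : rot a' (θ - h.1) h = (θ, (rot a' (θ - h.1) h).2) := by
        ext1
        · simp [rot]
        · rfl
      rw [h2] at h1
      exact h1
    have h3 := map_mem_closure hcont hcl hmaps
    simpa [rot_zero] using h3
  -- the angles that are used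
  have hs1 : ∀ᶠ z : ℂ in 𝓝 0, |Real.arccos (1 - |z.re| / 2)| < ε / (8 * (‖κ‖ + 1)) := by
    have hc : Continuous (fun z : ℂ => |Real.arccos (1 - |z.re| / 2)|) := by
      have := Real.continuous_arccos
      have := Complex.continuous_re
      fun_prop
    apply hc.continuousAt.eventually_lt continuousAt_const
    simp
    positivity
  have hs2 : ∀ᶠ z : ℂ in 𝓝 0, |Real.arcsin (-z.im / 2)| < ε / (8 * (‖κ‖ + 1)) := by
    have hc : Continuous (fun z : ℂ => |Real.arcsin (-z.im / 2)|) := by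
      have := Real.continuous_arcsin
      have := Complex.continuous_im
      fun_prop
    apply hc.continuousAt.eventually_lt continuousAt_const
    simp
    positivity
  have hs3 : ∀ᶠ z : ℂ in 𝓝 0, ‖z‖ < 1 := by
    have : ContinuousAt (fun z : ℂ => ‖z‖) 0 := continuous_norm.continuousAt
    apply this.eventually_lt continuousAt_const
    simp
  have hs4 : ∀ᶠ z : ℂ in 𝓝 0, ‖κ * z‖ < ε / 8 := by
    have : ContinuousAt (fun z : ℂ => ‖κ * z‖) 0 := by fun_prop
    apply this.eventually_lt continuousAt_const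
    simp
    positivity
  have hall := hs1.and (hs2.and (hs3.and hs4))
  have htend : Tendsto (fun v : ℂ => (v₁ - v) / κ) (𝓝 v₁) (𝓝 0) := by
    have : ContinuousAt (fun v : ℂ => (v₁ - v) / κ) v₁ := by fun_prop
    have h := this.tendsto
    simpa using h
  obtain ⟨v, ⟨k1, k2, k3, k4⟩, hvG⟩ :=
    ((htend.eventually hall).and_frequently (mem_closure_iff_frequently.1 hclG)).exists
  set z : ℂ := (v₁ - v) / κ with hz
  have hzv : v₁ = v + κ * z := by rw [hz]; field_simp; ring
  set s := Real.arccos (1 - |z.re| / 2) with hs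
  set r := Real.arcsin (-z.im / 2) with hr
  have hre : |z.re| < 1 := (Complex.abs_re_le_norm z).trans_lt k3
  have him : |z.im| < 1 := (Complex.abs_im_le_norm z).trans_lt k3
  have hcos : 2 - 2 * Real.cos s = |z.re| := by
    rw [hs, Real.cos_arccos (by linarith) (by linarith [abs_nonneg z.re])]; ring
  have hsin : -2 * Real.sin r = z.im := by
    have h1 := abs_lt.1 him
    rw [hr, Real.sin_arcsin (by linarith [h1.2]) (by linarith [h1.1])]; ring
  have hκn : (0:ℝ) ≤ ‖κ‖ := norm_nonneg κ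
  have hbound : ‖κ‖ * (ε / (8 * (‖κ‖ + 1))) ≤ ε / 8 := by
    have : ‖κ‖ * (ε / (8 * (‖κ‖ + 1))) = (ε / 8) * (‖κ‖ / (‖κ‖ + 1)) := by
      field_simp
    rw [this]
    have h1 : ‖κ‖ / (‖κ‖ + 1) ≤ 1 := by
      rw [div_le_one (by linarith)]; linarith
    calc ε / 8 * (‖κ‖ / (‖κ‖ + 1)) ≤ ε / 8 * 1 := by gcongr
      _ = ε / 8 := mul_one _
  have hsmall : ε / (8 * (‖κ‖ + 1)) ≤ ε := by
    rw [div_le_iff₀ (by linarith)]
    nlinarith
  have hmove : ∀ q : ℝ, |q| < ε / (8 * (‖κ‖ + 1)) → ‖κ * (1 - e q)‖ < ε / 8 + ε / 100 := by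
    intro q hq
    rw [norm_mul]
    calc ‖κ‖ * ‖1 - e q‖ ≤ ‖κ‖ * |q| := by gcongr; exact norm_one_sub_e q
      _ ≤ ‖κ‖ * (ε / (8 * (‖κ‖ + 1))) := by gcongr
      _ ≤ ε / 8 := hbound
      _ < ε / 8 + ε / 100 := by linarith
  have k2' : |-r| < ε / (8 * (‖κ‖ + 1)) := by rw [abs_neg]; exact k2
  have k1' : |-s| < ε / (8 * (‖κ‖ + 1)) := by rw [abs_neg]; exact k1
  have hes : e s + e (-s) = 2 * Real.cos s := by
    rw [e_eq, e_eq, Real.cos_neg, Real.sin_neg]; push_cast; ring
  have her : e (-r) - e r = -2 * Real.sin r * Complex.I := by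
    rw [e_eq, e_eq, Real.cos_neg, Real.sin_neg]; push_cast; ring
  have hv0 : ‖v - v₁‖ < ε / 8 := by
    have : v - v₁ = -(κ * z) := by rw [hzv]; ring
    rw [this, norm_neg]; exact k4
  have tri : ∀ p q : ℂ, ∀ α β : ℝ, ‖p‖ < α → ‖q‖ < β → ‖p + q‖ < α + β := by
    intro p q α β hp hq
    exact (norm_add_le p q).trans_lt (add_lt_add hp hq)
  -- first two moves reach the real part
  have step2 : ∃ v2 ∈ G, v2 = v + κ * z.re ∧ ‖v2 - v₁‖ < ε / 2 := by
    rcases le_total 0 z.re with hpos | hneg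
    · refine ⟨v + κ * (1 - e s) + κ * (1 - e (-s)), ?_, ?_, ?_⟩
      · apply C1 _ _ (-s) (k1'.trans_le hsmall)
        · exact C1 v (hv0.trans (by linarith)) s (k1.trans_le hsmall) hvG
        · have h1 := tri _ _ _ _ hv0 (hmove s k1)
          have h2 : v + κ * (1 - e s) - v₁ = v - v₁ + κ * (1 - e s) := by ring
          rw [h2]; linarith
      · have h1 : (z.re : ℂ) = 2 - 2 * Real.cos s := by
          rw [← abs_of_nonneg hpos, ← hcos]; push_cast; ring
        rw [h1]
        linear_combination (-κ) * hes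
      · have h1 := tri _ _ _ _ (tri _ _ _ _ hv0 (hmove s k1)) (hmove (-s) k1')
        have h2 : v + κ * (1 - e s) + κ * (1 - e (-s)) - v₁
          = v - v₁ + κ * (1 - e s) + κ * (1 - e (-s)) := by ring
        rw [h2]; linarith
    · refine ⟨v - κ * (1 - e (-s)) - κ * (1 - e (-(-s))), ?_, ?_, ?_⟩
      · apply C2 _ _ (-s) (k1'.trans_le hsmall)
        · exact C2 v (hv0.trans (by linarith)) s (k1.trans_le hsmall) hvG
        · have h0 := hmove (-s) k1'
          rw [← norm_neg] at h0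
          have h1 := tri _ _ _ _ hv0 h0
          have h2 : v - κ * (1 - e (-s)) - v₁ = v - v₁ + -(κ * (1 - e (-s))) := by ring
          rw [h2]; linarith
      · have h1 : (z.re : ℂ) = -(2 - 2 * Real.cos s) := by
          have : z.re = -|z.re| := by rw [abs_of_nonpos hneg]; ring
          rw [this, ← hcos]; push_cast; ring
        rw [h1, neg_neg]
        linear_combination κ * hes
      · have h0 := hmove (-s) k1'
        rw [← norm_neg] at h0
        have h0' := hmove s k1
        rw [← norm_neg] at h0'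
        have h1 := tri _ _ _ _ (tri _ _ _ _ hv0 h0) h0'
        have h2 : v - κ * (1 - e (-s)) - κ * (1 - e (-(-s))) - v₁
          = v - v₁ + -(κ * (1 - e (-s))) + -(κ * (1 - e s)) := by rw [neg_neg]; ring
        rw [h2]; linarith
  obtain ⟨v2, hv2G, hv2, hv2n⟩ := step2
  have step4 : v2 + κ * (1 - e r) - κ * (1 - e (-r)) ∈ G := by
    apply C2 _ _ r (k2.trans_le hsmall)
    · exact C1 v2 (hv2n.trans (by linarith)) r (k2.trans_le hsmall) hv2G
    · have h1 := tri _ _ _ _ hv2n (hmove r k2)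
      have h2 : v2 + κ * (1 - e r) - v₁ = v2 - v₁ + κ * (1 - e r) := by ring
      rw [h2]; linarith
  have hfinal : v2 + κ * (1 - e r) - κ * (1 - e (-r)) = v₁ := by
    rw [hv2, hzv]
    have h1 : (z.im : ℂ) = -2 * Real.sin r := by rw [← hsin]; push_cast; ring
    have h2 : z = z.re + z.im * Complex.I := (Complex.re_add_im z).symm
    have h3 : κ * z = κ * z.re + κ * (-2 * Real.sin r * Complex.I) := by
      conv_lhs => rw [h2]
      rw [h1]; ring
    rw [h3]
    linear_combination κ * her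
  rw [hfinal] at step4
  exact step4

/-- **Main theorem** (in terms of placements): if `A` is countable and `B` agrees with a regular
open set up to a meagre set, then `A` has at most one point. -/
theorem subsingleton_of_regular (hP : Pl A B) (hA : A.Countable) (hO : IsOpen O)
    (hreg : ∀ W : Set ℂ, IsOpen W → W ⊆ closure O → W ⊆ O)
    (hE : IsMeagre (B \ O)) (hN : IsMeagre (O \ B)) : A.Subsingleton := by
  intro a₀ h0 a₁ h1
  by_contra hne01
  have hZc : IsClosed (Zset A O) := isClosed_Zset hO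
  have hZne := Zset_nonempty hP hO hN h0 h1 hne01
  have hZint := interior_Zset (O := O) hP hA hE
  have : CompleteSpace (Zset A O) := hZc.completeSpace_coe
  have : Nonempty (Zset A O) := hZne.to_subtype
  have : Countable A := hA.to_subtype
  obtain ⟨⟨a, haA⟩, h₀', hh₀⟩ := nonempty_interior_of_iUnion_of_closed
    (X := Zset A O) (f := fun b : A => closure {h : Zset A O | act h.1 b ∈ B})
    (fun b => isClosed_closure) (by
      rw [eq_univ_iff_forall]
      intro h
      obtain ⟨b, ⟨hbA, hbB⟩, -⟩ := exists_unique_act hP h.1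
      exact mem_iUnion.2 ⟨⟨b, hbA⟩, subset_closure hbB⟩)
  simp only at hh₀
  set Y : Set (ℝ × ℂ) := closure {h | act h a ∈ B ∧ act h a ∉ O} with hY
  have hZa : ∀ h, act h a ∈ B → act h a ∉ O → h ∈ Zset A O := by
    intro h hB hnO a' ha' hO'
    by_cases haa : a' = a
    · subst haa; exact hnO hO'
    · exact circle_avoid hP hA hO hE hN ha' haA haa hB hO' (norm_act_sub h a' a)
  have hYZ : Y ⊆ Zset A O := by
    apply closure_minimal _ hZc
    intro h hh
    exact hZa h hh.1 hh.2
  have hYrot : ∀ t : ℝ, ∀ h ∈ Y, rot a t h ∈ Y := by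
    intro t h hh
    refine map_mem_closure (continuous_rot_right a t) hh ?_
    intro g hg
    simp only [mem_ofPred_eq, act_rot_self] at hg ⊢
    exact hg
  -- the open set `V`
  obtain ⟨V, hVo, hV0, hVsub⟩ : ∃ V : Set (ℝ × ℂ), IsOpen V ∧ h₀'.1 ∈ V ∧
      ∀ h ∈ V, h ∈ Zset A O → h ∈ Y := by
    rw [mem_interior] at hh₀
    obtain ⟨T, hT, hTo, hT0⟩ := hh₀
    obtain ⟨V, hVo, hVT⟩ := isOpen_induced_iff.1 hTo
    refine ⟨V, hVo, ?_, ?_⟩
    · have : h₀' ∈ (Subtype.val ⁻¹' V : Set (Zset A O)) := by rw [hVT]; exact hT0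
      exact this
    · intro h hhV hhZ
      have h1 : (⟨h, hhZ⟩ : Zset A O) ∈ T := by
        rw [← hVT]; exact hhV
      have h2 := hT h1
      have h3 := map_mem_closure continuous_subtype_val h2
        (t := {h | act h a ∈ B ∧ act h a ∉ O}) (by
          intro g hg
          exact ⟨hg, g.2 a haA⟩)
      exact h3
  obtain ⟨h₀, hh₀Z⟩ := h₀'
  simp only at hV0
  obtain ⟨ε, hε, hball⟩ := Metric.isOpen_iff.1 hVo h₀ hV0
  set U := ball h₀ ε with hU
  have hUo : IsOpen U := isOpen_ball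
  -- another point of `A` that is sent into `O` inside `U`
  obtain ⟨a', ha'A, ha'ne, g, hgU, hgO⟩ : ∃ a' ∈ A, a' ≠ a ∧ ∃ g ∈ U, act g a' ∈ O := by
    by_contra hcon
    push Not at hcon
    have hsub : (fun h => act h a) '' U ⊆ closure O := by
      rintro _ ⟨h, hhU, rfl⟩
      have hdense : h ∈ closure (U \ Zset A O) := by
        have h1 : Dense (Zset A O)ᶜ := by
          rw [← interior_eq_empty_iff_dense_compl]; exact hZint
        have h2 := h1.open_subset_closure_inter hUo hhU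
        have h3 : U ∩ (Zset A O)ᶜ = U \ Zset A O := rfl
        rw [h3] at h2
        exact h2
      refine map_mem_closure (f := fun h => act h a) (continuous_act a) hdense ?_
      intro k hk
      have hk2 : ¬ ∀ b ∈ A, act k b ∉ O := hk.2
      push Not at hk2
      obtain ⟨b, hbA, hbO⟩ := hk2
      by_cases hba : b = a
      · subst hba; exact hbO
      · exact absurd hbO (hcon b hbA hba k hk.1)
    have h1 := hreg _ (isOpenMap_act a U hUo) hsub
    exact hh₀Z a haA (h1 ⟨h₀, mem_ball_self hε, rfl⟩)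
  -- the set of placements sending `a'` into `O`
  have hopen : ∀ b : ℂ, IsOpen {h | act h b ∈ O} := fun b => hO.preimage (continuous_act b)
  have hUpre : IsPreconnected U := (convex_ball h₀ ε).isPreconnected
  obtain ⟨h₁, hh₁U, hh₁cl, hh₁O⟩ : ∃ h₁ ∈ U, h₁ ∈ closure {h | act h a' ∈ O} ∧ act h₁ a' ∉ O := by
    by_contra hcon
    push Not at hcon
    have hsub : U ⊆ {h | act h a' ∈ O} ∪ (closure {h | act h a' ∈ O})ᶜ := by
      intro h hh
      by_cases hc : h ∈ closure {h | act h a' ∈ O}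
      · exact Or.inl (hcon h hh hc)
      · exact Or.inr hc
    have hdis : Disjoint {h | act h a' ∈ O} (closure {h | act h a' ∈ O})ᶜ := by
      rw [disjoint_compl_right_iff_subset]; exact subset_closure
    have := IsPreconnected.subset_left_of_subset_union (hopen a')
      isClosed_closure.isOpen_compl hdis hsub ⟨g, hgU, hgO⟩ hUpre
    exact hh₀Z a' ha'A (this (mem_ball_self hε))
  -- local invariance
  apply hh₁O
  refine closure_step ha'ne.symm hUo ?_ hh₁U hh₁cl
  intro h hhO t hpath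
  have hcont : Continuous (fun s : ℝ => rot a (s * t) h) :=
    (continuous_rot_left a h).comp (by fun_prop)
  have hP1 : IsPreconnected ((fun s : ℝ => rot a (s * t) h) '' Icc (0:ℝ) 1) :=
    isPreconnected_Icc.image _ hcont.continuousOn
  have hsub : (fun s : ℝ => rot a (s * t) h) '' Icc (0:ℝ) 1 ⊆
      {h | act h a' ∈ O} ∪ ⋃ b ∈ A \ {a'}, {h | act h b ∈ O} := by
    rintro _ ⟨s, hs, rfl⟩
    have hnZ : rot a (s * t) h ∉ Zset A O := by
      intro hZ
      have h1 := hVsub _ (hball (hpath s hs)) hZ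
      have h2 := hYrot (-(s * t)) _ h1
      rw [rot_rot] at h2
      have h3 : rot a (s * t + -(s * t)) h = h := by rw [add_neg_cancel, rot_zero]
      rw [h3] at h2
      exact hYZ h2 a' ha'A hhO
    have hnZ' : ¬ ∀ b ∈ A, act (rot a (s * t) h) b ∉ O := hnZ
    push Not at hnZ'
    obtain ⟨b, hbA, hbO⟩ := hnZ'
    by_cases hba : b = a'
    · left; rw [← hba]; exact hbO
    · right; exact mem_biUnion (x := b) ⟨hbA, hba⟩ hbO
  have hdis : Disjoint {h | act h a' ∈ O} (⋃ b ∈ A \ {a'}, {h | act h b ∈ O}) := by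
    rw [Set.disjoint_left]
    intro h hh hh2
    obtain ⟨b, hb, hbO⟩ := mem_iUnion₂.1 hh2
    exact hb.2 (Hdisj hP hO hN hb.1 ha'A hbO hh)
  have hres := IsPreconnected.subset_left_of_subset_union (hopen a')
    (isOpen_biUnion fun b _ => hopen b) hdis hsub
    ⟨h, ⟨0, by simp, by simp [rot_zero]⟩, hhO⟩ hP1
  have h1 : rot a (1 * t) h ∈ {h | act h a' ∈ O} := hres ⟨1, by simp, rfl⟩
  rw [one_mul] at h1
  exact h1

end Core

end Pool.Agent.Lib.MP_3a436c_lc
end

section

set_option autoImplicit false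

open Set Topology Metric Filter MeasureTheory

namespace Pool.Agent.Lib.MP_3a436c_lc

variable {A B : Set ℂ}

lemma Pl.symm (hP : Pl A B) : Pl B A := by
  intro u v hu
  have hu0 : u ≠ 0 := by rintro rfl; simp at hu
  obtain ⟨z, ⟨hzA, hzB⟩, huniq⟩ := hP u⁻¹ (-(u⁻¹ * v)) (by rw [norm_inv, hu, inv_one])
  refine ⟨u⁻¹ * z + -(u⁻¹ * v), ⟨hzB, ?_⟩, ?_⟩
  · have : u * (u⁻¹ * z + -(u⁻¹ * v)) + v = z := by field_simp; ring
    rw [this]; exact hzA
  · rintro w ⟨hwB, hwA⟩
    have h1 := huniq (u * w + v) ⟨hwA, by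
      have : u⁻¹ * (u * w + v) + -(u⁻¹ * v) = w := by field_simp; ring
      rw [this]; exact hwB⟩
    rw [← h1]; field_simp; ring

lemma pl_of_pair (h : ∀ a b : ℂ, ‖a‖ = 1 → ∃! z : ℂ, z ∈ A ∧ ∃ w ∈ B, a * w + b = z) :
    Pl A B := by
  intro u v hu
  have hu0 : u ≠ 0 := by rintro rfl; simp at hu
  obtain ⟨z, ⟨hzA, w, hwB, hw⟩, huniq⟩ := h u⁻¹ (-(u⁻¹ * v)) (by rw [norm_inv, hu, inv_one])
  refine ⟨z, ⟨hzA, ?_⟩, ?_⟩
  · have : u * z + v = w := by rw [← hw]; field_simp; ring
    rw [this]; exact hwB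
  · rintro y ⟨hyA, hyB⟩
    exact huniq y ⟨hyA, _, hyB, by field_simp; ring⟩

/-- **Main theorem.** If `A` is countable and `B` has the property of Baire then the pair is
trivial. -/
theorem trivial_of_countable (hP : Pl A B) (hA : A.Countable) (hB : BaireMeasurableSet B) :
    (∃ p : ℂ, A = {p}) ∧ B = univ := by
  obtain ⟨u, huo, hu⟩ := hB.residualEq_isOpen
  set O := interior (closure u) with hO
  have huO : u ⊆ O := interior_maximal subset_closure huo
  have hreg : ∀ W : Set ℂ, IsOpen W → W ⊆ closure O → W ⊆ O := by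
    intro W hW hWO
    apply interior_maximal _ hW
    refine hWO.trans ?_
    exact closure_minimal interior_subset isClosed_closure
  have hE : IsMeagre (B \ O) := by
    rw [IsMeagre]
    filter_upwards [hu] with x hx
    intro hc
    have : x ∈ u := by
      have h1 : (x ∈ B) = (x ∈ u) := hx
      rw [← h1]; exact hc.1
    exact hc.2 (huO this)
  have hN : IsMeagre (O \ B) := by
    rw [IsMeagre]
    filter_upwards [hu, closure_residualEq huo.isLocallyClosed] with x hx hx2
    intro hc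
    have h1 : (x ∈ B) = (x ∈ u) := hx
    have h2 : (x ∈ closure u) = (x ∈ u) := hx2
    have h3 : x ∈ closure u := interior_subset hc.1
    rw [h2, ← h1] at h3
    exact hc.2 h3
  have hsub := subsingleton_of_regular hP hA isOpen_interior hreg hE hN
  obtain ⟨p, ⟨hpA, _⟩, _⟩ := hP 1 0 (by simp)
  have hAp : A = {p} := Subset.antisymm (fun a ha => hsub ha hpA) (by rintro _ rfl; exact hpA)
  refine ⟨⟨p, hAp⟩, ?_⟩
  rw [eq_univ_iff_forall]
  intro z
  obtain ⟨a, ⟨haA, haB⟩, _⟩ := hP 1 (z - p) (by simp)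
  have : a = p := hsub haA hpA
  subst this
  simpa using haB

/-- All small positive numbers are distances of `S`. -/
def Small (S : Set ℂ) : Prop := ∃ ε > 0, ∀ r : ℝ, 0 < r → r < ε → ∃ x ∈ S, ∃ y ∈ S, ‖x - y‖ = r

lemma countable_of_small (hP : Pl A B) (hB : Small B) : A.Countable := by
  obtain ⟨ε, hε, h⟩ := hB
  have hsep : ∀ a ∈ A, ∀ a' ∈ A, a ≠ a' → ε ≤ ‖a - a'‖ := by
    intro a ha a' ha' hne
    by_contra hlt
    push Not at hlt
    obtain ⟨x, hx, y, hy, hxy⟩ := h ‖a - a'‖ (norm_pos_iff.2 (sub_ne_zero.2 hne)) hlt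
    exact hne (dist_disjoint hP ha ha' hx hy hxy)
  refine Set.PairwiseDisjoint.countable_of_isOpen (s := fun a => ball a (ε / 2)) ?_
    (fun _ _ => isOpen_ball) (fun a _ => ⟨a, mem_ball_self (by linarith)⟩)
  intro a ha a' ha' hne
  apply ball_disjoint_ball
  rw [dist_eq_norm]
  linarith [hsep a ha a' ha' hne]

lemma small_of_volume (hB : MeasurableSet B) (h : volume B ≠ 0) : Small B := by
  have h1 := Measure.sub_mem_nhds_zero_of_addHaar_pos volume B hB (pos_iff_ne_zero.2 h)
  obtain ⟨ε, hε, hball⟩ := Metric.mem_nhds_iff.1 h1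
  refine ⟨ε, hε, fun r hr0 hr => ?_⟩
  have h2 : (r : ℂ) ∈ ball (0:ℂ) ε := by
    rw [mem_ball_zero_iff, Complex.norm_real, Real.norm_eq_abs, abs_of_pos hr0]; exact hr
  obtain ⟨x, hx, y, hy, hxy⟩ := hball h2
  refine ⟨x, hx, y, hy, ?_⟩
  simp only at hxy
  rw [hxy, Complex.norm_real, Real.norm_eq_abs, abs_of_pos hr0]

lemma small_of_nonmeagre (hB : BaireMeasurableSet B) (h : ¬ IsMeagre B) : Small B := by
  obtain ⟨u, huo, hu⟩ := hB.residualEq_isOpen
  have hne : u.Nonempty := by
    by_contra hemp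
    rw [not_nonempty_iff_eq_empty] at hemp
    subst hemp
    apply h
    rw [IsMeagre]
    filter_upwards [hu] with x hx
    have h1 : (x ∈ B) = (x ∈ (∅ : Set ℂ)) := hx
    intro hc
    rw [h1] at hc
    exact hc
  have hN : IsMeagre (u \ B) := by
    rw [IsMeagre]
    filter_upwards [hu] with x hx
    intro hc
    have h1 : (x ∈ B) = (x ∈ u) := hx
    exact hc.2 (h1 ▸ hc.1)
  obtain ⟨x, hx⟩ := hne
  obtain ⟨ε, hε, hball⟩ := Metric.isOpen_iff.1 huo x hx
  refine ⟨ε, hε, fun r hr0 hr => ?_⟩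
  have hW : IsOpen (u ∩ (fun z : ℂ => z + r) ⁻¹' u) := huo.inter (huo.preimage (by fun_prop))
  have hxW : x ∈ u ∩ (fun z : ℂ => z + r) ⁻¹' u := by
    refine ⟨hx, hball ?_⟩
    rw [mem_ball, dist_eq_norm, add_sub_cancel_left, Complex.norm_real, Real.norm_eq_abs,
      abs_of_pos hr0]
    exact hr
  have hm1 : IsMeagre ((fun z : ℂ => z + r) ⁻¹' (u \ B)) :=
    IsMeagre.preimage_of_isOpenMap (by fun_prop) (Homeomorph.addRight (r:ℂ)).isOpenMap hN
  have hnm := not_isMeagre_of_isOpen hW ⟨x, hxW⟩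
  have : ∃ z ∈ u ∩ (fun z : ℂ => z + r) ⁻¹' u, z ∉ (u \ B) ∪ (fun z : ℂ => z + r) ⁻¹' (u \ B) := by
    by_contra hcon
    push Not at hcon
    exact hnm ((hN.union hm1).mono hcon)
  obtain ⟨z, hz, hz'⟩ := this
  have hzB : z ∈ B := by
    by_contra hc; exact hz' (Or.inl ⟨hz.1, hc⟩)
  have hzB' : z + r ∈ B := by
    by_contra hc; exact hz' (Or.inr ⟨hz.2, hc⟩)
  refine ⟨z + r, hzB', z, hzB, ?_⟩
  rw [add_sub_cancel_left, Complex.norm_real, Real.norm_eq_abs, abs_of_pos hr0]

lemma small_of_preconnected {C : Set ℂ} (hC : IsPreconnected C) (hCB : C ⊆ B)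
    (hn : ¬ C.Subsingleton) : Small B := by
  rw [not_subsingleton_iff] at hn
  obtain ⟨x, hx, y, hy, hne⟩ := hn
  refine ⟨‖y - x‖, norm_pos_iff.2 (sub_ne_zero.2 hne.symm), fun r hr0 hr => ?_⟩
  have hcont : ContinuousOn (fun z : ℂ => ‖z - x‖) C := by fun_prop
  have h1 := hC.intermediate_value hx hy hcont
  have h2 : r ∈ Icc ‖x - x‖ ‖y - x‖ := by
    simp only [sub_self, norm_zero, mem_Icc]; exact ⟨hr0.le, hr.le⟩
  obtain ⟨z, hz, hzr⟩ := h1 h2
  exact ⟨z, hCB hz, x, hCB hx, hzr⟩

/-- In a nontrivial Steinhaus pair of Borel sets small distances are missing on both sides and both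
sets are uncountable. -/
theorem structure_of_nontrivial (hP : Pl A B) (hA : MeasurableSet A) (hB : MeasurableSet B)
    (h1 : ¬ ((∃ p : ℂ, A = {p}) ∧ B = univ)) (h2 : ¬ ((∃ p : ℂ, B = {p}) ∧ A = univ)) :
    (¬ A.Countable ∧ ¬ Small A) ∧ (¬ B.Countable ∧ ¬ Small B) := by
  have hAc : ¬ A.Countable := fun h => h1 (trivial_of_countable hP h hB.baireMeasurableSet)
  have hBc : ¬ B.Countable := fun h => h2 (trivial_of_countable hP.symm h hA.baireMeasurableSet)
  exact ⟨⟨hAc, fun h => hBc (countable_of_small hP.symm h)⟩,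
    ⟨hBc, fun h => hAc (countable_of_small hP h)⟩⟩

lemma null_meagre_of_not_small (hB : MeasurableSet B) (h : ¬ Small B) :
    volume B = 0 ∧ IsMeagre B ∧ IsTotallyDisconnected B := by
  refine ⟨?_, ?_, ?_⟩
  · by_contra hc; exact h (small_of_volume hB hc)
  · by_contra hc; exact h (small_of_nonmeagre hB.baireMeasurableSet hc)
  · intro C hCB hC
    by_contra hc
    exact h (small_of_preconnected hC hCB hc)

end Pool.Agent.Lib.MP_3a436c_lc
end
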