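import Mathlib
import Pool.Agent.Lib.MP_3a436c_lc.Cor

set_option autoImplicit false

open Set Topology Metric Filter MeasureTheory

namespace Pool.Agent.Lib.MP_3a436c_lc

variable {A B : Set ℂ}

lemma isClosed_meet {K L : Set ℂ} (hK : IsCompact K) (hL : IsClosed L) :
    IsClosed {h : ℝ × ℂ | ∃ a ∈ K, act h a ∈ L} := by
  have hcont : Continuous (fun p : (ℝ × ℂ) × ℂ => act p.1 p.2) := by
    unfold act
    have := continuous_e
    fun_prop
  have : CompactSpace K := isCompact_iff_compactSpace.1 hK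
  have hmap : IsClosedMap (Prod.fst : (ℝ × ℂ) × K → ℝ × ℂ) := isClosedMap_fst_of_compactSpace
  have hcl : IsClosed {p : (ℝ × ℂ) × K | act p.1 p.2.1 ∈ L} := by
    apply hL.preimage
    exact hcont.comp (by fun_prop : Continuous fun p : (ℝ × ℂ) × K => (p.1, p.2.1))
  have h1 := hmap _ hcl
  convert h1 using 1
  ext h
  constructor
  · rintro ⟨a, haK, haL⟩
    exact ⟨(h, ⟨a, haK⟩), haL, rfl⟩
  · rintro ⟨⟨h', a⟩, haL, rfl⟩
    exact ⟨a.1, a.2, haL⟩

theorem measurableSet_of_sigmaCompact {S : Set ℂ} (h : IsSigmaCompact S) : MeasurableSet S := by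
  obtain ⟨K, hK, rfl⟩ := h
  exact MeasurableSet.iUnion fun n => (hK n).isClosed.measurableSet

theorem trivial_of_sigmaCompact (hP : Pl A B) (hA : IsSigmaCompact A) (hB : IsSigmaCompact B) :
    ((∃ p : ℂ, A = {p}) ∧ B = univ) ∨ ((∃ p : ℂ, B = {p}) ∧ A = univ) := by
  have hAm := measurableSet_of_sigmaCompact hA
  have hBm := measurableSet_of_sigmaCompact hB
  suffices hs : Small A ∨ Small B by
    rcases hs with h | h
    · exact Or.inr (trivial_of_countable hP.symm (countable_of_small hP.symm h)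
        hAm.baireMeasurableSet)
    · exact Or.inl (trivial_of_countable hP (countable_of_small hP h) hBm.baireMeasurableSet)
  obtain ⟨K, hK, hKA⟩ := hA
  obtain ⟨L, hL, hLB⟩ := hB
  obtain ⟨⟨n, m⟩, h₀, hh₀⟩ := nonempty_interior_of_iUnion_of_closed
    (X := ℝ × ℂ) (f := fun p : ℕ × ℕ => {h : ℝ × ℂ | ∃ a ∈ K p.1, act h a ∈ L p.2})
    (fun p => isClosed_meet (hK p.1) (hL p.2).isClosed) (by
      rw [eq_univ_iff_forall]
      intro h
      obtain ⟨a, ⟨haA, haB⟩, -⟩ := exists_unique_act hP h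
      rw [← hKA] at haA
      rw [← hLB] at haB
      obtain ⟨n, hn⟩ := mem_iUnion.1 haA
      obtain ⟨m, hm⟩ := mem_iUnion.1 haB
      exact mem_iUnion.2 ⟨(n, m), a, hn, hm⟩)
  simp only at hh₀
  obtain ⟨ε, hε, hball⟩ := Metric.isOpen_iff.1 isOpen_interior h₀ hh₀
  set V := ball h₀ ε with hV
  have hVF : ∀ h ∈ V, ∃ a ∈ K n, act h a ∈ L m := by
    intro h hh
    have h1 := interior_subset (hball hh)
    exact h1
  choose! α hαK hαL using hVF
  have hKA' : K n ⊆ A := by rw [← hKA]; exact subset_iUnion K n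
  have hLB' : L m ⊆ B := by rw [← hLB]; exact subset_iUnion L m
  have hcontact : Continuous (fun p : (ℝ × ℂ) × ℂ => act p.1 p.2) := by
    unfold act
    have := continuous_e
    fun_prop
  have hcont : ContinuousOn α V := by
    intro h hh
    refine (hK n).tendsto_nhds_of_unique_mapClusterPt ?_ ?_
    · filter_upwards [self_mem_nhdsWithin] with k hk using hαK k hk
    · intro a haK hcl
      have haL : act h a ∈ L m := by
        by_contra hnL
        have hopen : IsOpen {p : (ℝ × ℂ) × ℂ | act p.1 p.2 ∉ L m} :=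
          (hL m).isClosed.isOpen_compl.preimage hcontact
        have hmem : {p : (ℝ × ℂ) × ℂ | act p.1 p.2 ∉ L m} ∈ 𝓝 (h, a) := hopen.mem_nhds hnL
        rw [nhds_prod_eq, Filter.mem_prod_iff] at hmem
        obtain ⟨N1, hN1, N2, hN2, hsub⟩ := hmem
        have hfreq := (mapClusterPt_iff_frequently.1 hcl) N2 hN2
        have hev : ∀ᶠ k in 𝓝[V] h, k ∈ N1 ∧ k ∈ V := by
          have e1 : ∀ᶠ k in 𝓝[V] h, k ∈ N1 := nhdsWithin_le_nhds hN1
          have e2 : ∀ᶠ k in 𝓝[V] h, k ∈ V := self_mem_nhdsWithin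
          exact e1.and e2
        obtain ⟨k, hkN2, hkN1, hkV⟩ := (hfreq.and_eventually hev).exists
        exact hsub (mk_mem_prod hkN1 hkN2) (hαL k hkV)
      obtain ⟨z, -, hz⟩ := exists_unique_act hP h
      rw [hz a ⟨hKA' haK, hLB' haL⟩, hz (α h) ⟨hKA' (hαK h hh), hLB' (hαL h hh)⟩]
  have hpre : IsPreconnected (α '' V) := ((convex_ball h₀ ε).isPreconnected).image α hcont
  by_cases hsub : (α '' V).Subsingleton
  · right
    have h₀V : h₀ ∈ V := mem_ball_self hε
    have hconst : ∀ h ∈ V, α h = α h₀ := fun h hh => hsub ⟨h, hh, rfl⟩ ⟨h₀, h₀V, rfl⟩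
    have hopen : IsOpen ((fun h => act h (α h₀)) '' V) := isOpenMap_act (α h₀) V isOpen_ball
    have hsubB : (fun h => act h (α h₀)) '' V ⊆ B := by
      rintro _ ⟨h, hh, rfl⟩
      have := hαL h hh
      rw [hconst h hh] at this
      exact hLB' this
    apply small_of_nonmeagre hBm.baireMeasurableSet
    intro hm
    exact not_isMeagre_of_isOpen hopen ⟨_, ⟨h₀, h₀V, rfl⟩⟩ (hm.mono hsubB)
  · left
    refine small_of_preconnected hpre ?_ hsub
    rintro _ ⟨h, hh, rfl⟩
    exact hKA' (hαK h hh)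

end Pool.Agent.Lib.MP_3a436c_lc
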